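import Pool.Agent.Lib.MP_c3d375_an.Neg.Iface

/-!
# MP_c3d375 (S06050): monotonicity of the certificates, the degenerate case of 4.5
-/

open Complex Metric Set Filter Topology ComplexConjugate Pool.Agent.Lib.MP_c3d375_an

namespace C3N.H26

variable {H : Type} [NormedAddCommGroup H] [InnerProductSpace ℂ H] [CompleteSpace H]
  {𝓐 : Type} [CommRing 𝓐] [Algebra ℂ 𝓐] {Φ : 𝓐 →ₐ[ℂ] (H →L[ℂ] H)}

theorem cer_mono {q j Δ : 𝓐} {M M' e ρ : ℝ} (h : Cer Φ q j Δ M e ρ) (hM : M ≤ M') (he : 0 ≤ e)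
    (hρ : 0 < ρ) : Cer Φ q j Δ M' e ρ where
  hj := h.hj
  nj := h.nj.trans hM
  nK := h.nK.trans hM
  nJ := h.nJ.trans hM
  nq := h.nq.trans (by gcongr)
  nΔ := h.nΔ.trans (by gcongr)
  acc := h.acc
  ber := fun x => (neg_le_neg (by gcongr)).trans (h.ber x)
  pj := fun x => (neg_le_neg (by gcongr)).trans (h.pj x)
  pJ := fun x => (neg_le_neg (by gcongr)).trans (h.pJ x)

theorem near_mono {q j Δ : 𝓐} {M M' δ δ' : ℝ} {v : H} (h : Near Φ q j Δ M δ v) (hM : M ≤ M')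
    (hδ : δ ≤ δ') : Near Φ q j Δ M' δ' v where
  hj := h.hj
  nj := h.nj.trans hM
  nK := h.nK.trans hM
  nJ := h.nJ.trans hM
  nΔ := h.nΔ.trans hδ
  acc := h.acc
  pj := fun x => (neg_le_neg (by gcongr)).trans (h.pj x)
  pJ := fun x => (neg_le_neg (by gcongr)).trans (h.pJ x)
  nv := h.nv.trans hM
  nu := h.nu.trans hM
  ny := h.ny.trans hM
  form := h.form.trans hδ
  xi := h.xi.trans hδ
  k1 := h.k1.trans hδ
  k2 := h.k2.trans hδ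

theorem kerA_mono {q qi j B L : 𝓐} {a : ℝ} {ν b : ℂ} {M M' δ δ' : ℝ}
    (h : KerA Φ q qi j B L a ν b M δ) (hM0 : 0 ≤ M) (hM : M ≤ M') (hδ : δ ≤ δ') :
    KerA Φ q qi j B L a ν b M' δ' :=
  have hM0' : 0 ≤ M' := hM0.trans hM
  {
  hqi := h.hqi
  nB := h.nB.trans hM
  nk := h.nk.trans hM
  nl := h.nl.trans hM
  hb := h.hb
  hν := h.hν.trans hM
  hν' := h.hν'.trans hM
  hν0 := h.hν0
  ha := h.ha
  ha' := h.ha'.trans (by gcongr)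
  posx := fun n => (h.posx n).trans (by gcongr)
  posu := fun n => (h.posu n).trans (by gcongr)
  kx := fun n n' => (h.kx n n').trans (by gcongr)
  ku := fun n n' => (h.ku n n').trans (by gcongr) }

theorem small_x {q qi j B L Δ : 𝓐} {a : ℝ} {ν b : ℂ} {M δ : ℝ} {v : H} (hδ : 0 ≤ δ)
    (hn : Near Φ q j Δ M δ v) (hk : KerA Φ q qi j B L a ν b M δ) (hb : b.re < 1 / 2) :
    ‖Φ (q ^ 2 * j) v‖ ^ 2 ≤ 2 * (δ + δ * (M * M) ^ 2) := by
  have h0 := hk.posx (Φ (q ^ 2 * j) v)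
  have e1 : (qi ^ 2 + b • 1) * (q ^ 2 * j) = 1 + (b - 1) • (q ^ 2 * j) := by
    have h1 : qi ^ 2 * q ^ 2 = 1 := by rw [← mul_pow, mul_comm, hk.hqi, one_pow]
    have h2 : j + q ^ 2 * j = 1 := by rw [← hn.hj]; ring
    have h3 : (b • (1 : 𝓐)) * (q ^ 2 * j) = b • (q ^ 2 * j) := by rw [smul_mul_assoc, one_mul]
    rw [add_mul, h3, sub_smul, one_smul, ← mul_assoc, h1, one_mul]
    rw [← h2]; ring
  have e2 : Φ (qi ^ 2 + b • 1) (Φ (q ^ 2 * j) v) = v + (b - 1) • Φ (q ^ 2 * j) v := by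
    rw [← mul_apply_eq_comp, ← map_mul, e1, map_add, map_one, map_smul]
    rfl
  rw [e2, inner_add_right, inner_smul_right, Complex.add_re] at h0
  have e3 : (inner ℂ (Φ (q ^ 2 * j) v) v).re = (inner ℂ v (Φ (q ^ 2 * j) v)).re := by
    rw [← inner_conj_symm, Complex.conj_re]
  have e4 : ((b - 1) * inner ℂ (Φ (q ^ 2 * j) v) (Φ (q ^ 2 * j) v)).re =
      (b.re - 1) * ‖Φ (q ^ 2 * j) v‖ ^ 2 := by
    rw [inner_self_eq_norm_sq_to_K]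
    have : ((‖Φ (q ^ 2 * j) v‖ : ℂ)) ^ 2 = ((‖Φ (q ^ 2 * j) v‖ ^ 2 : ℝ) : ℂ) := by push_cast; rfl
    erw [this, Complex.re_mul_ofReal, Complex.sub_re, Complex.one_re]
  rw [e3, e4] at h0
  have h1 := (abs_le.1 hn.k1).2
  have h2 : ‖Φ (q ^ 2 * j) v‖ ≤ M * M :=
    (ContinuousLinearMap.le_opNorm _ _).trans (mul_le_mul hn.nJ hn.nv (norm_nonneg _) ((norm_nonneg _).trans hn.nJ))
  have h3 : ‖Φ (q ^ 2 * j) v‖ ^ 2 ≤ (M * M) ^ 2 := by gcongr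
  have h4 : δ * ‖Φ (q ^ 2 * j) v‖ ^ 2 ≤ δ * (M * M) ^ 2 := by gcongr
  nlinarith [sq_nonneg ‖Φ (q ^ 2 * j) v‖]

theorem small_u {q qi j B L Δ : 𝓐} {a : ℝ} {ν b : ℂ} {M δ : ℝ} {v : H} (hδ : 0 ≤ δ)
    (hn : Near Φ q j Δ M δ v) (hk : KerA Φ q qi j B L a ν b M δ) (hb : b.re < 1 / 2) :
    ‖Φ j (Φ q v)‖ ^ 2 ≤ 2 * (δ + δ * (M * M) ^ 2) := by
  set u := Φ q v with hu
  have h0 := hk.posu (Φ j u)
  have e1 : (q ^ 2 + (conj b) • 1) * j = 1 + (conj b - 1) • j := by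
    have h2 : j + q ^ 2 * j = 1 := by rw [← hn.hj]; ring
    have h3 : ((conj b) • (1 : 𝓐)) * j = (conj b) • j := by rw [smul_mul_assoc, one_mul]
    rw [add_mul, h3, sub_smul, one_smul]
    rw [← h2]; ring
  have e2 : Φ (q ^ 2 + (conj b) • 1) (Φ j u) = u + (conj b - 1) • Φ j u := by
    rw [← mul_apply_eq_comp, ← map_mul, e1, map_add, map_one, map_smul]
    rfl
  rw [e2, inner_add_right, inner_smul_right, Complex.add_re] at h0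
  have e3 : (inner ℂ (Φ j u) u).re = (inner ℂ u (Φ j u)).re := by
    rw [← inner_conj_symm, Complex.conj_re]
  have e4 : ((conj b - 1) * inner ℂ (Φ j u) (Φ j u)).re = (b.re - 1) * ‖Φ j u‖ ^ 2 := by
    rw [inner_self_eq_norm_sq_to_K]
    have : ((‖Φ j u‖ : ℂ)) ^ 2 = ((‖Φ j u‖ ^ 2 : ℝ) : ℂ) := by push_cast; rfl
    erw [this, Complex.re_mul_ofReal, Complex.sub_re, Complex.one_re, Complex.conj_re]
  rw [e3, e4] at h0
  have h1 := (abs_le.1 hn.k2).2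
  have h2 : ‖Φ j u‖ ≤ M * M :=
    (ContinuousLinearMap.le_opNorm _ _).trans (mul_le_mul hn.nj hn.nu (norm_nonneg _) ((norm_nonneg _).trans hn.nj))
  have h3 : ‖Φ j u‖ ^ 2 ≤ (M * M) ^ 2 := by gcongr
  have h4 : δ * ‖Φ j u‖ ^ 2 ≤ δ * (M * M) ^ 2 := by gcongr
  nlinarith [sq_nonneg ‖Φ j u‖]

theorem gain_small {q qi j B L Δ : 𝓐} {a : ℝ} {ν b κ : ℂ} {M δ : ℝ} {v : H} (hM : 1 ≤ M)
    (hδ : 0 ≤ δ) (hn : Near Φ q j Δ M δ v) (hk : KerA Φ q qi j B L a ν b M δ)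
    (hb : b.re < 1 / 2) (hκ : ‖κ‖ ≤ M) :
    ‖inner ℂ v (Φ ((κ / 2) • (B * (j + (ν⁻¹ ^ 2) • (q ^ 2 * j)))) (Φ q v))‖ ≤
      M ^ 5 * √(2 * (δ + δ * (M * M) ^ 2)) := by
  set σ := √(2 * (δ + δ * (M * M) ^ 2)) with hσ
  set u := Φ q v with hu
  have hσ0 : 0 ≤ σ := Real.sqrt_nonneg _
  have h1 : ‖Φ (q ^ 2 * j) v‖ ≤ σ := Real.le_sqrt_of_sq_le (small_x hδ hn hk hb)
  have h2 : ‖Φ j u‖ ≤ σ := Real.le_sqrt_of_sq_le (small_u hδ hn hk hb)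
  have e1 : Φ ((κ / 2) • (B * (j + (ν⁻¹ ^ 2) • (q ^ 2 * j)))) u =
      (κ / 2) • (Φ B (Φ j u) + (ν⁻¹ ^ 2) • Φ q (Φ B (Φ (q ^ 2 * j) v))) := by
    rw [map_smul, smul_apply]
    congr 1
    rw [mul_add, map_add, add_apply, map_mul, mul_apply_eq_comp,
      mul_smul_comm, map_smul, smul_apply]
    congr 2
    rw [hu, ← mul_apply_eq_comp, ← mul_apply_eq_comp,
      ← mul_apply_eq_comp, ← map_mul, ← map_mul, ← map_mul]
    congr 2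
    ring
  have e2 : inner ℂ v (Φ q (Φ B (Φ (q ^ 2 * j) v))) =
      inner ℂ ((Φ q).adjoint v) (Φ B (Φ (q ^ 2 * j) v)) := by
    rw [ContinuousLinearMap.adjoint_inner_left]
  rw [e1, inner_smul_right, inner_add_right, inner_smul_right, e2]
  have h3 : ‖inner ℂ v (Φ B (Φ j u))‖ ≤ M * (M * σ) :=
    (norm_inner_le_norm _ _).trans (mul_le_mul hn.nv ((ContinuousLinearMap.le_opNorm _ _).trans
      (mul_le_mul hk.nB h2 (norm_nonneg _) (by linarith))) (norm_nonneg _) (by linarith))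
  have h4 : ‖inner ℂ ((Φ q).adjoint v) (Φ B (Φ (q ^ 2 * j) v))‖ ≤ M * (M * σ) :=
    (norm_inner_le_norm _ _).trans (mul_le_mul hn.ny ((ContinuousLinearMap.le_opNorm _ _).trans
      (mul_le_mul hk.nB h1 (norm_nonneg _) (by linarith))) (norm_nonneg _) (by linarith))
  have h5 : ‖ν⁻¹ ^ 2‖ ≤ M ^ 2 := by
    rw [norm_pow]
    have := hk.hν'
    gcongr
  have h6 : ‖κ / 2‖ ≤ M / 2 := by
    rw [norm_div, Complex.norm_two]
    gcongr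
  rw [norm_mul]
  calc ‖κ / 2‖ * ‖inner ℂ v (Φ B (Φ j u)) +
        ν⁻¹ ^ 2 * inner ℂ ((Φ q).adjoint v) (Φ B (Φ (q ^ 2 * j) v))‖
      ≤ M / 2 * (M * (M * σ) + M ^ 2 * (M * (M * σ))) := by
        refine mul_le_mul h6 ((norm_add_le _ _).trans (add_le_add h3 ?_)) (norm_nonneg _)
          (by linarith)
        rw [norm_mul]
        exact mul_le_mul h5 h4 (norm_nonneg _) (by positivity)
    _ = (M ^ 3 / 2 + M ^ 5 / 2) * σ := by ring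
    _ ≤ M ^ 5 * σ := by
        have h7 : M ^ 3 ≤ M ^ 5 := pow_le_pow_right₀ hM (by norm_num)
        have : M ^ 3 / 2 + M ^ 5 / 2 ≤ M ^ 5 := by linarith
        gcongr

end C3N.H26
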