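import Pool.Agent.Lib.MP_c3d375_an.Neg.Iface

/-!
# MP_c3d375 (S06050): the upper bound for `W` from the upper bound for systems
-/

open Complex Metric Set Filter Topology ComplexConjugate Pool.Agent.Lib.MP_c3d375_an

namespace C3N.H26

theorem ub_st (ubc : UBCStatement) (red : REDStatement) : UBStatement := by
  obtain ⟨C0, hC0, hub⟩ := ubc
  refine ⟨C0, hC0, fun a ha ha1 Y hY δ hδ => ?_⟩
  have h1a : 0 < 1 - a := by linarith
  have hY0 : 0 < Y := lt_of_lt_of_le (by positivity) hY
  obtain ⟨e1, he1, hub⟩ := hub a ha ha1 Y hY (δ / 2) (by positivity)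
  obtain ⟨e2, he2, hred⟩ := red a ha ha1
  refine ⟨min e1 e2, lt_min he1 he2, fun e he hlt w hw him => ?_⟩
  set E : ℝ := e ^ (3 / 2 : ℝ) with hE
  have hE0 : 0 < E := by positivity
  set ε : ℝ := min (Y * e / 4) (δ * E / 4) with hε
  have hYe : 0 < Y * e := by positivity
  have hδE : 0 < δ * E := by positivity
  have hε0 : 0 < ε := lt_min (by positivity) (by positivity)
  have hε1 : ε ≤ Y * e / 4 := min_le_left _ _
  have hε2 : ε ≤ δ * E / 4 := min_le_right _ _
  obtain ⟨H, i1, i2, i3, r, hr, hr', S, q, x, hq, hx, hwx⟩ :=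
    hred e he (hlt.trans_le (min_le_right _ _)) w hw ε hε0
  set z : ℂ := inner ℂ x (S.Φ (ff q) x) with hz
  have h1 : |z.im - w.im| ≤ ε := by
    rw [← Complex.sub_im]
    exact (Complex.abs_im_le_norm _).trans hwx
  have h2 : |z.re - w.re| ≤ ε := by
    rw [← Complex.sub_re]
    exact (Complex.abs_re_le_norm _).trans hwx
  rw [abs_le] at h1 h2
  have h3 : 0 ≤ z.im := by rw [him] at h1; linarith [h1.1]
  have h4 := hub e he (hlt.trans_le (min_le_left _ _)) H r hr hr' S q hq x hx
    (by rw [← hz, abs_of_nonneg h3]; rw [him] at h1; linarith [h1.1])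
    (by rw [← hz, abs_of_nonneg h3]; rw [him] at h1; linarith [h1.2])
  rw [← hz, ← hE] at h4
  linarith [h2.1, h2.2]

end C3N.H26
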