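import Pool.Agent.Lib.MP_c3d375_an.Neg.H26.Fin
import Pool.Agent.Lib.MP_c3d375_an.Neg.H26.Ub
import Pool.Agent.Lib.MP_c3d375_an.Neg.H15.Ubc
import Pool.Agent.Lib.MP_c3d375_an.Neg.H02.FarC
import Pool.Agent.Lib.MP_c3d375_an.Neg.H14.Nu
import Pool.Agent.Lib.MP_c3d375_an.Neg.H16.Cer
import Pool.Agent.Lib.MP_c3d375_an.Neg.H19.GC1
import Pool.Agent.Lib.MP_c3d375_an.Neg.H19.GC2
import Pool.Agent.Lib.MP_c3d375_an.Neg.H19.GIN
import Pool.Agent.Lib.MP_c3d375_an.Neg.H19.Red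
import Pool.Agent.Lib.MP_c3d375_an.Neg.H30.Clt
import Pool.Agent.Lib.MP_c3d375_an.Neg.H37.Tip
import Pool.Agent.Lib.MP_c3d375_an.Neg.H38.Ce
import Pool.Agent.Lib.MP_c3d375_an.Neg.H38.Rx
import Pool.Agent.Lib.MP_c3d375_an.Neg.H47.Ta
import Pool.Agent.Lib.MP_c3d375_an.Neg.H5.Sya
import Pool.Agent.Lib.MP_c3d375_an.Neg.H54.Zn
import Pool.Agent.Lib.MP_c3d375_an.Neg.H56.Ker
import Pool.Agent.Lib.MP_c3d375_an.Neg.H59.Lp
import Pool.Agent.Lib.MP_c3d375_an.Neg.H64.Mi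
import Pool.Agent.Lib.MP_c3d375_an.Neg.H65.Cru
import Pool.Agent.Lib.MP_c3d375_an.Neg.H65.GMst
import Pool.Agent.Lib.MP_c3d375_an.Neg.H69.TW
import Pool.Agent.Lib.MP_c3d375_an.Neg.H75.Sys
import Pool.Agent.Lib.MP_c3d375_an.Neg.H85.Inv
import Pool.Agent.Lib.MP_c3d375_an.Neg.H85.Kk
import Pool.Agent.Lib.MP_c3d375_an.Neg.H85.P1st
import Pool.Agent.Lib.MP_c3d375_an.Neg.H91.PB
import Pool.Agent.Lib.MP_c3d375_an.Neg.H97.Bnd
import Pool.Agent.Lib.MP_c3d375_an.Neg.H99.Cal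

/-!
# MP_c3d375 (S06050): everything together
-/

open Complex Metric Set Filter Topology ComplexConjugate Pool.Agent.Lib.MP_c3d375_an

namespace C3N.H26

theorem all : ∃ C₁ C₂ : Set ℂ, IsClosed C₁ ∧ Convex ℝ C₁ ∧ IsClosed C₂ ∧
      Convex ℝ C₂ ∧ ¬ Convex ℝ (W C₁ C₂) := by
  have gc1 := C3N.H19.gc1_st
  have gc2 := C3N.H19.gc2_st
  have gin := C3N.H19.gin_st
  have p1 := C3N.H85.p1_st
  have gm := C3N.H65.gm_st
  have nu := C3N.H14.nu_st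
  have cru := C3N.H65.cru_st p1 gm nu
  have cer := C3N.H16.cer_st p1 cru nu
  have mi := C3N.H64.mi_st p1 gm nu
  have ker := C3N.H56.ker_st p1 nu
  have bnd := C3N.H97.bnd_st p1 nu
  have pb := C3N.H91.pb_st nu
  have pa := C3N.H91.pa_st nu
  have kk := C3N.H85.kk_st C3N.H85.inv_st
  have ce := C3N.H38.ce_st kk C3N.H38Rx.rx_st
  have clt := C3N.H30.clt_st ce
  have zn := C3N.H54.zn_st C3N.H59.lp_st
  have sya := C3N.H5.sya_st gc1 gin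
  have pos := C3N.H75.pos_st gc1
  have krn := C3N.H75.krn_st gc1
  have red := C3N.H19.red_st gc1 gc2 sya C3N.H99.cal_st pos krn
  have ubc := C3N.H15.ubc_st p1 cru cer mi zn clt ker bnd pb pa nu
  have tip := C3N.H37.tip_st gc1 gin gc2 (C3N.H69.tw_st gc1) (C3N.H47.ta_st gin)
  exact fin gc1 gc2 (ub_st ubc red) Pool.Agent.Lib.MP_c3d375_an.FarX.far_st tip

end C3N.H26
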