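import Pool.Agent.Lib.MP_c3d375_an.Neg.Iface

/-!
# MP_c3d375 (S06050): the conclusion
-/

open Complex Metric Set Filter Topology ComplexConjugate Pool.Agent.Lib.MP_c3d375_an

namespace C3N.H26

theorem rpow_aux {x : ℝ} (hx : 0 < x) {s : ℝ} {n : ℕ} (h : 12 * s = n) :
    ((x ^ 12)⁻¹) ^ (-s) = x ^ n := by
  rw [Real.inv_rpow (by positivity), Real.rpow_neg (by positivity), inv_inv,
    ← Real.rpow_natCast x 12, ← Real.rpow_mul hx.le, ← Real.rpow_natCast x n, ← h]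
  norm_num

theorem fin (gc1 : GC1Statement) (gc2 : GC2Statement) (ub : UBStatement) (far : FARStatement)
    (tip : TIPStatement) : ∃ C₁ C₂ : Set ℂ, IsClosed C₁ ∧ Convex ℝ C₁ ∧ IsClosed C₂ ∧
      Convex ℝ C₂ ∧ ¬ Convex ℝ (W C₁ C₂) := by
  obtain ⟨C0, hC0, hub⟩ := ub
  set x : ℝ := max 3 (3000 * C0) with hx
  have hx3 : 3 ≤ x := le_max_left _ _
  have hxC : 3000 * C0 ≤ x := le_max_right _ _
  have hx0 : 0 < x := by linarith
  have hx12 : 20 ≤ x ^ 12 := by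
    calc (20 : ℝ) ≤ 3 ^ 12 := by norm_num
      _ ≤ x ^ 12 := by gcongr
  set a : ℝ := 1 - (x ^ 12)⁻¹ with ha
  have h1a : 1 - a = (x ^ 12)⁻¹ := by rw [ha]; ring
  have hinv : (x ^ 12)⁻¹ ≤ (20 : ℝ)⁻¹ := by gcongr
  have hinv0 : 0 < (x ^ 12)⁻¹ := by positivity
  have ha1 : a < 1 := by linarith
  have ha2 : 19 / 20 ≤ a := by rw [ha]; norm_num at hinv ⊢; linarith
  have ha3 : 1 / 2 ≤ a := by linarith
  have r1 : (1 - a) ^ (-(5 / 4 : ℝ)) = x ^ 15 := by rw [h1a]; exact rpow_aux hx0 (by norm_num)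
  have r2 : (1 - a) ^ (-(4 / 3 : ℝ)) = x ^ 16 := by rw [h1a]; exact rpow_aux hx0 (by norm_num)
  have r3 : (1 - a) ^ (-2 : ℝ) = x ^ 24 := by rw [h1a]; exact rpow_aux hx0 (by norm_num)
  set δ : ℝ := x ^ 24 / 400 with hδ
  obtain ⟨e1, he1, hub⟩ := hub a ha3 ha1 (C0 * x ^ 15) (by rw [r1]) δ (by positivity)
  obtain ⟨e2, he2, hgc1⟩ := gc1 a ha3 ha1
  obtain ⟨e3, he3, hfar⟩ := far a ha3 ha1
  obtain ⟨e4, he4, htip⟩ := tip a ha2 ha1
  set e : ℝ := min (min e1 e2) (min e3 e4) / 2 with he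
  have hm : 0 < min (min e1 e2) (min e3 e4) := lt_min (lt_min he1 he2) (lt_min he3 he4)
  have hee : 0 < e := by positivity
  have hem : e < min (min e1 e2) (min e3 e4) := by rw [he]; linarith
  have h1 : e < e1 := hem.trans_le ((min_le_left _ _).trans (min_le_left _ _))
  have h2 : e < e2 := hem.trans_le ((min_le_left _ _).trans (min_le_right _ _))
  have h3 : e < e3 := hem.trans_le ((min_le_right _ _).trans (min_le_left _ _))
  have h4 : e < e4 := hem.trans_le ((min_le_right _ _).trans (min_le_right _ _))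
  obtain ⟨g1, g2, -, -⟩ := hgc1 e hee h2
  obtain ⟨g3, g4, -⟩ := gc2
  refine ⟨C1 a e, C2, g1, g2, g3, g4, fun hconv => ?_⟩
  obtain ⟨w1, hw1, hw1i, hw1r⟩ := hfar e hee h3
  obtain ⟨w0, hw0, hw0i, hw0r⟩ := htip e hee h4
  rw [r2] at hw1i
  rw [r3] at hw1r hw0r
  set E : ℝ := e ^ (3 / 2 : ℝ) with hE
  have hE0 : 0 < E := by positivity
  -- the chord
  set t : ℝ := 3 / 2 * C0 / x with ht
  have ht0 : 0 < t := by positivity
  have ht1 : t ≤ 1 / 2000 := by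
    rw [ht, div_le_iff₀ hx0]
    linarith
  have hmem : (1 - t) • w0 + t • w1 ∈ W (C1 a e) C2 :=
    hconv hw0 hw1 (by linarith) ht0.le (by ring)
  have him : ((1 - t) • w0 + t • w1).im = 3 / 2 * (C0 * x ^ 15) * e := by
    simp only [Complex.add_im, Complex.real_smul, Complex.im_ofReal_mul, hw0i, hw1i, ht]
    field_simp
    ring
  have hre : ((1 - t) • w0 + t • w1).re = (1 - t) * w0.re + t * w1.re := by
    simp only [Complex.add_re, Complex.real_smul, Complex.re_ofReal_mul]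
  have h5 := hub e hee h1 _ hmem him
  rw [hre] at h5
  have h6 : (1 - t) * w0.re ≤ (1 - t) * -(1 / 100 * x ^ 24 * E) :=
    mul_le_mul_of_nonneg_left hw0r (by linarith)
  have h7 : t * w1.re ≤ t * (8 * x ^ 24 * E) := mul_le_mul_of_nonneg_left hw1r ht0.le
  have hX : 0 < x ^ 24 * E := by positivity
  have h8 : -(δ * E) ≤ (-(1 - t) / 100 + 8 * t) * (x ^ 24 * E) := by
    calc -(δ * E) ≤ _ := h5
      _ ≤ (1 - t) * -(1 / 100 * x ^ 24 * E) + t * (8 * x ^ 24 * E) := by linarith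
      _ = _ := by ring
  have h9 : (-(1 - t) / 100 + 8 * t) * (x ^ 24 * E) ≤ -(1 / 200) * (x ^ 24 * E) :=
    mul_le_mul_of_nonneg_right (by linarith) hX.le
  have h10 : -(δ * E) = -(1 / 400) * (x ^ 24 * E) := by rw [hδ]; ring
  nlinarith

end C3N.H26
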